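import Pool.Agent.Q18.HQ.Stmts

set_option autoImplicit false

namespace Pool.Agent.Q322.BK.Fin

open Pool.Agent.Q18.HQ

private def LM : List ℕ := [1, 3, 11, 33, 89, 267, 979, 2937]
private def Lm : List ℕ := [1, 2, 3, 4, 5, 6, 8, 10, 12, 15, 20, 24, 25, 30, 40, 50, 60, 75, 100, 120, 125, 150,
  200, 250, 300, 375, 500, 600, 625, 750, 1000, 1250, 1500, 1875, 2500, 3000, 3750, 5000, 7500, 15000]

private def tA : Bool := (List.range 184).all fun a => (List.range 184).all fun b =>
  !(Nat.beq (1125000000 % ((184 * a + b) * (184 * a + b))) 0) || Lm.elem (184 * a + b)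
private def tB : Bool := (List.range 167).all fun a => (List.range 167).all fun b =>
  !(Nat.beq (767711241 % ((167 * a + b) * (167 * a + b))) 0) || LM.elem (167 * a + b)
private def tC : Bool := LM.all fun M => Lm.all fun m => (List.range 122).all fun k =>
  !(Nat.beq (M * M * (m * m) + 72579 * (m * m) * (k * k)) (m * m * (m * m) + 1125000000 * (k * k * (k * k)))) ||
    (Nat.beq k 0 || (!(Nat.beq (Nat.gcd m k) 1) || (Nat.beq m 250 && Nat.beq k 1)))

private theorem hA : tA = true := by decide +kernel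
private theorem hB : tB = true := by decide +kernel
private theorem hC : tC = true := by decide +kernel

private theorem mem_Lm {m : ℕ} (h : m ^ 2 ∣ 1125000000) : m ∈ Lm := by
  have h1 : m ^ 2 ≤ 1125000000 := Nat.le_of_dvd (by norm_num) h
  have h2 : m < 184 * 184 := by nlinarith
  have h3 := hA
  unfold tA at h3
  rw [List.all_eq_true] at h3
  have h4 := h3 (m / 184) (List.mem_range.2 (by omega))
  rw [List.all_eq_true] at h4
  have h5 := h4 (m % 184) (List.mem_range.2 (Nat.mod_lt _ (by norm_num)))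
  rw [Nat.div_add_mod] at h5
  have h6 : 1125000000 % (m * m) = 0 := by
    rw [← sq]; exact Nat.mod_eq_zero_of_dvd h
  rw [h6] at h5
  simpa using h5

private theorem mem_LM {m : ℕ} (h : m ^ 2 ∣ 767711241) : m ∈ LM := by
  have h1 : m ^ 2 ≤ 767711241 := Nat.le_of_dvd (by norm_num) h
  have h2 : m < 167 * 167 := by nlinarith
  have h3 := hB
  unfold tB at h3
  rw [List.all_eq_true] at h3
  have h4 := h3 (m / 167) (List.mem_range.2 (by omega))
  rw [List.all_eq_true] at h4
  have h5 := h4 (m % 167) (List.mem_range.2 (Nat.mod_lt _ (by norm_num)))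
  rw [Nat.div_add_mod] at h5
  have h6 : 767711241 % (m * m) = 0 := by
    rw [← sq]; exact Nat.mod_eq_zero_of_dvd h
  rw [h6] at h5
  simpa using h5

theorem main : Pool.Agent.Q18.HQ.TaskFin := by
  intro M m k hk hM hm hco he
  have h1 := mem_LM hM
  have h2 := mem_Lm hm
  have bM : M ≤ 2937 := by
    unfold LM at h1
    simp only [List.mem_cons, List.not_mem_nil, or_false] at h1
    omega
  have bm : m ≤ 15000 := by
    unfold Lm at h2
    simp only [List.mem_cons, List.not_mem_nil, or_false] at h2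
    omega
  have bM2 : M ^ 2 ≤ 8625969 := by nlinarith
  have bm2 : m ^ 2 ≤ 225000000 := by nlinarith
  have h3 : 1125000000 * k ^ 4 ≤ 225000000 * (8625969 + 72579 * k ^ 2) := by
    calc 1125000000 * k ^ 4 ≤ m ^ 4 + 1125000000 * k ^ 4 := Nat.le_add_left _ _
      _ = m ^ 2 * (M ^ 2 + 72579 * k ^ 2) := by rw [← he]; ring
      _ ≤ 225000000 * (8625969 + 72579 * k ^ 2) := Nat.mul_le_mul bm2 (by omega)
  have h4 : k < 122 := by
    by_contra hcon
    have h5 : 122 ≤ k := by omega
    have h6 : 14884 ≤ k ^ 2 := by nlinarith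
    have h7 : k ^ 4 = k ^ 2 * k ^ 2 := by ring
    rw [h7] at h3
    have h8 : 14884 * k ^ 2 ≤ k ^ 2 * k ^ 2 := Nat.mul_le_mul_right _ h6
    generalize k ^ 2 * k ^ 2 = z at *
    generalize k ^ 2 = y at *
    omega
  have h5 := hC
  unfold tC at h5
  rw [List.all_eq_true] at h5
  have h6 := h5 M h1
  rw [List.all_eq_true] at h6
  have h7 := h6 m h2
  rw [List.all_eq_true] at h7
  have h8 := h7 k (List.mem_range.2 h4)
  have h9 : M * M * (m * m) + 72579 * (m * m) * (k * k) =
      m * m * (m * m) + 1125000000 * (k * k * (k * k)) := by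
    have e1 : M * M * (m * m) + 72579 * (m * m) * (k * k) = M ^ 2 * m ^ 2 + 72579 * m ^ 2 * k ^ 2 := by ring
    have e2 : m * m * (m * m) + 1125000000 * (k * k * (k * k)) = m ^ 4 + 1125000000 * k ^ 4 := by ring
    rw [e1, e2, he]
  have h10 : Nat.gcd m k = 1 := hco
  rw [h9, h10] at h8
  simp only [Bool.or_eq_true, Bool.not_eq_true', Bool.and_eq_true, Nat.beq_eq, Nat.beq_refl,
    Bool.true_eq_false, false_or] at h8
  rcases h8 with h8 | h8
  · omega
  · simpa using h8

end Pool.Agent.Q322.BK.Fin
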