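import Pool.Agent.Q18.HQ.Stmts

set_option autoImplicit false

namespace Pool.Agent.Q322.BK.Hankel

open Pool.Agent.Q18.HQ

private def Hk (t : ℚ) : Matrix (Fin 5) (Fin 5) ℚ :=
  !![5, 0, 26, 0, 194; 0, 26, 0, 194, 5 * t; 26, 0, 194, 5 * t, 1586; 0, 194, 5 * t, 1586, 91 * t;
    194, 5 * t, 1586, 91 * t, 13634]

private theorem det_Hk (t : ℚ) : (Hk t).det = 3125 * t ^ 4 - 2612844 * t ^ 2 + 466560000 := by
  unfold Hk
  simp [Matrix.det_succ_row_zero, Fin.sum_univ_succ, Fin.succAbove, Matrix.submatrix]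
  ring

theorem main : Pool.Agent.Q18.HQ.TaskHankel := by
  intro s t h1 h2 h3 h4 h5 h6 h7 h8
  refine ⟨(Matrix.vandermonde s).det, ?_⟩
  have hV : (Matrix.vandermonde s).transpose * Matrix.vandermonde s = Hk t := by
    ext i j
    rw [Matrix.vandermonde_transpose_mul_vandermonde]
    have h0 : ∑ i : Fin 5, s i ^ 0 = 5 := by simp
    have h1' : ∑ i : Fin 5, s i ^ 1 = 0 := by simpa using h1
    fin_cases i <;> fin_cases j <;> simp [Hk] <;> first | assumption | (simpa using h0) | skip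
  rw [← det_Hk, ← hV, Matrix.det_mul, Matrix.det_transpose]
  ring

end Pool.Agent.Q322.BK.Hankel
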